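import Pool.Agent.Q43.Dig.Stage

set_option autoImplicit false

namespace Pool.Agent.Q43.Dig

open Finset Filter

theorem ev_lin (a b : ℝ) (ha : 0 < a) : ∀ᶠ u : ℝ in atTop, b ≤ a * u :=
  (tendsto_id.const_mul_atTop ha).eventually_ge_atTop b

/-- Elements of the progression in `[x, (1+1/K)x]` avoiding a small set. -/
theorem count_ge (K x : ℝ) (hK : 0 < K) (n0 Q : ℕ) (hQ : 0 < Q) (Z : Finset ℤ) (G : Set ℤ)
    (hG : ∀ n : ℤ, x ≤ n → (n : ℝ) ≤ (1 + K⁻¹) * x → (Q : ℤ) ∣ n - n0 → n ∉ Z → n ∈ G)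
    (hGf : G.Finite) :
    x / (K * Q) - 1 - #Z ≤ (G.ncard : ℝ) := by
  classical
  have hQ' : (0 : ℝ) < Q := by exact_mod_cast hQ
  set t1 : ℤ := ⌈(x - n0) / Q⌉ with ht1
  set t2 : ℤ := ⌊((1 + K⁻¹) * x - n0) / Q⌋ with ht2
  set S : Finset ℤ := (Icc t1 t2).image (fun t => (n0 : ℤ) + Q * t) with hS
  have hScard : #S = (t2 + 1 - t1).toNat := by
    rw [hS, card_image_of_injective, Int.card_Icc]
    intro s t hst
    have : (Q : ℤ) * s = Q * t := by simpa using hst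
    exact mul_left_cancel₀ (by exact_mod_cast hQ.ne') this
  have hSge : x / (K * Q) - 1 ≤ (#S : ℝ) := by
    have h1 : ((t2 + 1 - t1 : ℤ) : ℝ) ≤ #S := by
      rw [hScard]
      exact_mod_cast Int.self_le_toNat _
    have h2 : ((1 + K⁻¹) * x - n0) / Q - 1 < t2 := Int.sub_one_lt_floor _
    have h3 : (t1 : ℝ) < (x - n0) / Q + 1 := Int.ceil_lt_add_one _
    have h4 : ((1 + K⁻¹) * x - n0) / Q - (x - n0) / Q = x / (K * Q) := by
      field_simp; ring
    push_cast at h1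
    linarith
  have hsub : ((S \ Z : Finset ℤ) : Set ℤ) ⊆ G := by
    intro n hn
    rw [mem_coe, Finset.mem_sdiff] at hn
    obtain ⟨hnS, hnZ⟩ := hn
    rw [hS, mem_image] at hnS
    obtain ⟨t, ht, rfl⟩ := hnS
    rw [mem_Icc] at ht
    have h1 : (x - n0) / Q ≤ t := Int.ceil_le.1 ht.1
    have h2 : (t : ℝ) ≤ ((1 + K⁻¹) * x - n0) / Q := Int.le_floor.1 ht.2
    rw [div_le_iff₀ hQ'] at h1
    rw [le_div_iff₀ hQ'] at h2
    apply hG _ _ _ _ hnZ
    · push_cast; linarith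
    · push_cast; linarith
    · rw [add_sub_cancel_left]; exact Dvd.intro t rfl
  have h5 : #(S \ Z) ≤ G.ncard := by
    rw [← Set.ncard_coe_finset]
    exact Set.ncard_le_ncard hsub hGf
  have h6 : #S ≤ #(S \ Z) + #Z := by
    have := le_card_sdiff Z S
    omega
  have h7 : (#S : ℝ) ≤ G.ncard + #Z := by exact_mod_cast h6.trans (by omega)
  linarith

theorem ev_prime (δ : ℝ) (hδ : 0 < δ) (hδ1 : δ < 1 / 2) : ∀ᶠ u : ℝ in atTop,
    Real.exp ((1 - 2 * δ) * u) ≤ Nat.primeCounting ⌊Real.exp ((1 - δ) * u)⌋₊ := by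
  have hlog : ∀ᶠ u : ℝ in atTop, 16 * u ≤ Real.exp (δ * u) := by
    have h1 := isLittleO_pow_exp_pos_mul_atTop (k := 1) hδ
    have h2 := h1.bound (show (0 : ℝ) < 1 / 16 by norm_num)
    filter_upwards [h2, eventually_gt_atTop 0] with u hu hu0
    simp only [pow_one, Real.norm_eq_abs, Real.abs_exp, abs_of_pos hu0] at hu
    linarith
  filter_upwards [hlog, eventually_ge_atTop (8 : ℝ)] with u hu hu1
  set E := Real.exp ((1 - δ) * u) with hE
  set X := ⌊E⌋₊ with hX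
  have hE4 : Real.exp 4 ≤ E := Real.exp_le_exp.2 (by nlinarith)
  have he4 : (16 : ℝ) ≤ Real.exp 4 := by
    have h1 : (2 : ℝ) ≤ Real.exp 1 := by have := Real.add_one_le_exp (1:ℝ); linarith
    have h2 : Real.exp 4 = (Real.exp 1) ^ 4 := by rw [← Real.exp_nat_mul]; norm_num
    rw [h2]
    calc (16 : ℝ) = 2 ^ 4 := by norm_num
      _ ≤ _ := pow_le_pow_left₀ (by norm_num) h1 4
  have hEX : E - 1 < X := Nat.sub_one_lt_floor _
  have hXE : (X : ℝ) ≤ E := Nat.floor_le (Real.exp_pos _).le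
  have hX15 : (15 : ℝ) < X := by linarith
  have hXn : 15 < X := by exact_mod_cast hX15
  have hpi := Chebyshev.pi_ge X
  have hlogX : Real.log X ≤ u := by
    calc Real.log X ≤ Real.log E := Real.log_le_log (by linarith) hXE
      _ = (1 - δ) * u := Real.log_exp _
      _ ≤ u := by nlinarith
  have hlogX0 : 0 < Real.log X := Real.log_pos (by linarith)
  have hl2 : (0.69 : ℝ) < Real.log 2 := by have := Real.log_two_gt_d9; linarith
  have hlX1 : Real.log ((X : ℝ) + 1) ≤ 0.4 * X := by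
    -- log(X+1) ≤ 2 sqrt(X+1) <= 0.4 X for X large; use log t ≤ t/8 + log 8 - 1 
    have h1 : Real.log (((X : ℝ) + 1) / 8) ≤ ((X : ℝ) + 1) / 8 - 1 :=
      Real.log_le_sub_one_of_pos (by positivity)
    rw [Real.log_div (by positivity) (by norm_num)] at h1
    have h8 : Real.log 8 = 3 * Real.log 2 := by
      rw [show (8 : ℝ) = 2 ^ 3 by norm_num, Real.log_pow]; norm_num
    have h9 : Real.log 2 < 0.7 := by have := Real.log_two_lt_d9; linarith
    linarith
  have h10 : (X : ℝ) * 0.29 ≤ X * Real.log 2 - Real.log ((X : ℝ) + 1) := by nlinarith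
  have h11 : E / 8 ≤ X * Real.log 2 - Real.log ((X : ℝ) + 1) := by nlinarith
  refine le_trans ?_ hpi
  rw [le_div_iff₀ hlogX0]
  have h12 : Real.exp ((1 - 2 * δ) * u) * Real.exp (δ * u) = E := by
    rw [hE, ← Real.exp_add]; congr 1; ring
  have h13 : 0 < Real.exp ((1 - 2 * δ) * u) := Real.exp_pos _
  calc Real.exp ((1 - 2 * δ) * u) * Real.log X ≤ Real.exp ((1 - 2 * δ) * u) * u :=
        mul_le_mul_of_nonneg_left hlogX h13.le
    _ ≤ Real.exp ((1 - 2 * δ) * u) * (Real.exp (δ * u) / 8) := by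
        apply mul_le_mul_of_nonneg_left _ h13.le
        nlinarith
    _ = E / 8 := by rw [← h12]; ring
    _ ≤ _ := h11

end Pool.Agent.Q43.Dig
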