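import Pool.Agent.Q43.Dig.Prim

set_option autoImplicit false

namespace Pool.Agent.Q43.Dig

open Finset

/-- Greedy choice of residue classes `r d` modulo `2 d` covering `range (H+1)` many times. -/
theorem greedy (H : ℕ) (D : Finset ℕ) (hD : ∀ d ∈ D, 0 < d) :
    ∃ r : ℕ → ℕ, ∑ h ∈ range (H + 1), ((1 : ℝ) / 2) ^ (#{d ∈ D | h ≡ r d [MOD 2 * d]}) ≤
      (H + 1) * ∏ d ∈ D, (1 - 1 / (4 * (d : ℝ))) := by
  induction D using Finset.induction_on with
  | empty => exact ⟨fun _ => 0, by simp⟩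
  | insert d D hd ih =>
    obtain ⟨r, hr⟩ := ih fun e he => hD e (mem_insert_of_mem he)
    have hd0 : 0 < d := hD d (mem_insert_self _ _)
    set w : ℕ → ℝ := fun h => ((1 : ℝ) / 2) ^ (#{e ∈ D | h ≡ r e [MOD 2 * e]}) with hw
    have hsplit : ∑ h ∈ range (H + 1), w h =
        ∑ s ∈ range (2 * d), ∑ h ∈ range (H + 1) with h % (2 * d) = s, w h := by
      rw [sum_fiberwise_of_maps_to]
      intro h _
      exact mem_range.2 (Nat.mod_lt _ (by omega))
    obtain ⟨s, hs, hsge⟩ : ∃ s ∈ range (2 * d), (∑ h ∈ range (H + 1), w h) / (2 * d) ≤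
        ∑ h ∈ range (H + 1) with h % (2 * d) = s, w h := by
      by_contra hcon
      push Not at hcon
      have h1 : ∑ s ∈ range (2 * d), ∑ h ∈ range (H + 1) with h % (2 * d) = s, w h <
          ∑ s ∈ range (2 * d), (∑ h ∈ range (H + 1), w h) / (2 * d) :=
        sum_lt_sum_of_nonempty ⟨0, mem_range.2 (by omega)⟩ fun s hs => hcon s hs
      rw [← hsplit, sum_const, card_range, nsmul_eq_mul] at h1
      have h2 : (0 : ℝ) < 2 * d := by positivity
      push_cast at h1
      rw [mul_div_cancel₀ _ h2.ne'] at h1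
      exact lt_irrefl _ h1
    refine ⟨Function.update r d s, ?_⟩
    have hsr : s < 2 * d := mem_range.1 hs
    have hval : ∀ h ∈ range (H + 1),
        ((1 : ℝ) / 2) ^ (#{e ∈ insert d D | h ≡ Function.update r d s e [MOD 2 * e]}) =
        w h - (if h % (2 * d) = s then (1 / 2) * w h else 0) := by
      intro h _
      have hfil : {e ∈ D | h ≡ Function.update r d s e [MOD 2 * e]} =
          {e ∈ D | h ≡ r e [MOD 2 * e]} := by
        apply filter_congr
        intro e he
        rw [Function.update_of_ne (by rintro rfl; exact hd he)]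
      rw [filter_insert, Function.update_self, hfil]
      by_cases hh : h % (2 * d) = s
      · have : h ≡ s [MOD 2 * d] := by
          rw [Nat.ModEq, hh, Nat.mod_eq_of_lt hsr]
        rw [if_pos this, if_pos hh, card_insert_of_notMem (by simp [hd]), hw]
        ring
      · have : ¬ h ≡ s [MOD 2 * d] := by
          intro h2
          apply hh
          rw [Nat.ModEq, Nat.mod_eq_of_lt hsr] at h2
          exact h2
        rw [if_neg this, if_neg hh, hw]
        ring
    rw [sum_congr rfl hval, sum_sub_distrib, ← sum_filter, ← mul_sum, prod_insert hd]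
    have hprod : 0 ≤ ∏ e ∈ D, (1 - 1 / (4 * (e : ℝ))) := by
      apply prod_nonneg
      intro e he
      have : (1 : ℝ) ≤ e := by exact_mod_cast hD e (mem_insert_of_mem he)
      rw [sub_nonneg, div_le_one (by positivity)]
      linarith
    have hd1 : (1 : ℝ) ≤ d := by exact_mod_cast hd0
    have h4 : 0 ≤ 1 - 1 / (4 * (d : ℝ)) := by
      rw [sub_nonneg, div_le_one (by positivity)]
      linarith
    calc ∑ h ∈ range (H + 1), w h - 1 / 2 * ∑ h ∈ range (H + 1) with h % (2 * d) = s, w h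
        ≤ ∑ h ∈ range (H + 1), w h - 1 / 2 * ((∑ h ∈ range (H + 1), w h) / (2 * d)) := by
          linarith
      _ = (1 - 1 / (4 * (d : ℝ))) * ∑ h ∈ range (H + 1), w h := by
          field_simp; ring
      _ ≤ (1 - 1 / (4 * (d : ℝ))) * ((H + 1) * ∏ e ∈ D, (1 - 1 / (4 * (e : ℝ)))) :=
          mul_le_mul_of_nonneg_left hr h4
      _ = _ := by ring

/-- Number of `h ≤ H` covered fewer than `L` times. -/
theorem greedy_count (H L : ℕ) (D : Finset ℕ) (hD : ∀ d ∈ D, 0 < d) :
    ∃ r : ℕ → ℕ, (#{h ∈ range (H + 1) | #{d ∈ D | h ≡ r d [MOD 2 * d]} < L} : ℝ) ≤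
      2 ^ L * (H + 1) * Real.exp (-(1 / 4) * ∑ d ∈ D, 1 / (d : ℝ)) := by
  obtain ⟨r, hr⟩ := greedy H D hD
  refine ⟨r, ?_⟩
  set B := {h ∈ range (H + 1) | #{d ∈ D | h ≡ r d [MOD 2 * d]} < L} with hB
  have h1 : (#B : ℝ) * (1 / 2) ^ L ≤
      ∑ h ∈ range (H + 1), ((1 : ℝ) / 2) ^ (#{d ∈ D | h ≡ r d [MOD 2 * d]}) := by
    calc (#B : ℝ) * (1 / 2) ^ L = ∑ h ∈ B, ((1 : ℝ) / 2) ^ L := by
          rw [sum_const, nsmul_eq_mul]
      _ ≤ ∑ h ∈ B, ((1 : ℝ) / 2) ^ (#{d ∈ D | h ≡ r d [MOD 2 * d]}) := by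
          apply sum_le_sum
          intro h hh
          apply pow_le_pow_of_le_one (by norm_num) (by norm_num)
          exact (mem_filter.1 hh).2.le
      _ ≤ _ := by
          apply sum_le_sum_of_subset_of_nonneg (filter_subset _ _)
          intro h _ _
          positivity
  have h2 : ∏ d ∈ D, (1 - 1 / (4 * (d : ℝ))) ≤ Real.exp (-(1 / 4) * ∑ d ∈ D, 1 / (d : ℝ)) := by
    rw [mul_sum, Real.exp_sum]
    apply prod_le_prod
    · intro e he
      have : (1 : ℝ) ≤ e := by exact_mod_cast hD e he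
      rw [sub_nonneg, div_le_one (by positivity)]
      linarith
    · intro e he
      have := Real.add_one_le_exp (-(1 / 4) * (1 / (e : ℝ)))
      have h3 : -(1 / 4) * (1 / (e : ℝ)) = - (1 / (4 * (e : ℝ))) := by
        rw [one_div, one_div, one_div, mul_inv]; ring
      rw [h3] at this ⊢
      linarith
  have h3 : (#B : ℝ) * (1 / 2) ^ L ≤ (H + 1) * Real.exp (-(1 / 4) * ∑ d ∈ D, 1 / (d : ℝ)) :=
    h1.trans (hr.trans (mul_le_mul_of_nonneg_left h2 (by positivity)))
  have h4 : (#B : ℝ) = ((#B : ℝ) * (1 / 2) ^ L) * 2 ^ L := by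
    rw [mul_assoc, ← mul_pow]; norm_num
  rw [h4]
  calc ((#B : ℝ) * (1 / 2) ^ L) * 2 ^ L
      ≤ ((H + 1) * Real.exp (-(1 / 4) * ∑ d ∈ D, 1 / (d : ℝ))) * 2 ^ L :=
        mul_le_mul_of_nonneg_right h3 (by positivity)
    _ = _ := by ring

/-- The condition: `p` divides `r j + a^h k`. -/
abbrev hit (a j : ℕ) (k : ℤ) (f : ℕ → ℕ) (p h : ℕ) : Prop :=
  (p : ℤ) ∣ (f p : ℤ) * j + (a : ℤ) ^ h * k

theorem exists_residue {p j : ℕ} (hp : p.Prime) (hj : 0 < j) (hjp : j < p) (m : ℤ) :
    ∃ r : ℕ, (p : ℤ) ∣ (r : ℤ) * j + m := by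
  have := Fact.mk hp
  have hj0 : (j : ZMod p) ≠ 0 := by
    rw [Ne, ZMod.natCast_eq_zero_iff]
    exact Nat.not_dvd_of_pos_of_lt hj hjp
  refine ⟨(-(m : ZMod p) / j).val, ?_⟩
  rw [← ZMod.intCast_zmod_eq_zero_iff_dvd]
  push_cast
  rw [ZMod.natCast_zmod_val, div_mul_cancel₀ _ hj0]
  ring

theorem hit_of_modEq {p a d j : ℕ} {k : ℤ} {f : ℕ → ℕ} {h h' : ℕ}
    (h1 : (a : ZMod p) ^ (2 * d) = 1) (hh : h ≡ h' [MOD 2 * d]) (hit' : hit a j k f p h') :
    hit a j k f p h := by
  unfold hit at *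
  rw [← ZMod.intCast_zmod_eq_zero_iff_dvd] at *
  push_cast at *
  have key : ∀ m : ℕ, (a : ZMod p) ^ m = (a : ZMod p) ^ (m % (2 * d)) := by
    intro m
    conv_lhs => rw [← Nat.div_add_mod m (2 * d), pow_add, pow_mul _ (2 * d), h1, one_pow, one_mul]
  have hpow : (a : ZMod p) ^ h = (a : ZMod p) ^ h' := by
    rw [key h, key h']
    exact congrArg _ hh
  rw [hpow]; exact hit'

/-- one combination `(a, j, k)` -/
theorem single {a j K : ℕ} (k : ℤ) (ha : 2 ≤ a) (haK : a ≤ K) (hj : 1 ≤ j) (hjK : j ≤ K)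
    (H L : ℕ) (U : Finset ℕ) (Y Z : ℕ) (hU : #U ≤ Y) (hKY : K ≤ Y) (hY : 2 ≤ Y) (hYZ : Y ≤ Z) :
    ∃ (P : Finset ℕ) (f : ℕ → ℕ), Disjoint U P ∧ (∀ p ∈ P, p.Prime ∧ K < p) ∧ #P + Y ≤ Z ∧
      ∏ p ∈ P, p ≤ K ^ (2 * Z ^ 2) ∧
      (#{h ∈ range (H + 1) | #{p ∈ P | hit a j k f p h} < L} : ℝ) ≤
        2 ^ L * (H + 1) * Real.exp (-(1 / 4) * ((∑ d ∈ Ioc Y Z with Odd d, 1 / (d : ℝ)) - 1)) := by
  classical
  have hex : ∀ d : ℕ, ∃ p : ℕ, (3 ≤ d ∧ Odd d) →
      (p.Prime ∧ orderOf ((a : ZMod p) ^ 2) = d ∧ (a : ZMod p) ^ (2 * d) = 1 ∧ d < p ∧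
      p ≤ a ^ (2 * d)) := by
    intro d
    by_cases hd : 3 ≤ d ∧ Odd d
    · obtain ⟨p, hp⟩ := exists_prime ha hd.1 hd.2
      exact ⟨p, fun _ => hp⟩
    · exact ⟨0, fun h => absurd h hd⟩
  choose q hq using hex
  set D0 : Finset ℕ := {d ∈ Ioc Y Z | Odd d} with hD0
  have hD0q : ∀ d ∈ D0, 3 ≤ d ∧ Odd d := by
    intro d hd
    rw [hD0, mem_filter, mem_Ioc] at hd
    exact ⟨by omega, hd.2⟩
  have hinj : Set.InjOn q D0 := by
    intro d hd e he hde
    have h1 := (hq d (hD0q d hd)).2.1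
    have h2 := (hq e (hD0q e he)).2.1
    rw [← hde, h1] at h2
    exact h2
  set D : Finset ℕ := {d ∈ D0 | q d ∉ U} with hD
  have hDD0 : D ⊆ D0 := filter_subset _ _
  set P : Finset ℕ := D.image q with hP
  have hinjD : Set.InjOn q D := hinj.mono (by exact_mod_cast hDD0)
  have hDpos : ∀ d ∈ D, 0 < d := fun d hd => by have := (hD0q d (hDD0 hd)).1; omega
  obtain ⟨r, hr⟩ := greedy_count H L D hDpos
  -- residues
  have hres : ∀ p : ℕ, ∃ s : ℕ, ∀ d ∈ D, q d = p → (p : ℤ) ∣ (s : ℤ) * j + (a : ℤ) ^ (r d) * k := by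
    intro p
    by_cases hp : ∃ d ∈ D, q d = p
    · obtain ⟨d, hd, hdp⟩ := hp
      have hqd := hq d (hD0q d (hDD0 hd))
      have hdY : Y < d := by
        have := hDD0 hd
        rw [hD0, mem_filter, mem_Ioc] at this
        exact this.1.1
      obtain ⟨s, hs⟩ := exists_residue (p := q d) hqd.1 (by omega : 0 < j) (by omega)
        ((a : ℤ) ^ (r d) * k)
      refine ⟨s, fun e he hep => ?_⟩
      have : e = d := hinjD he hd (hep.trans hdp.symm)
      rw [this, ← hdp]; exact hs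
    · exact ⟨0, fun d hd hdp => absurd ⟨d, hd, hdp⟩ hp⟩
  choose f hf using hres
  have hhit : ∀ d ∈ D, ∀ h : ℕ, h ≡ r d [MOD 2 * d] → hit a j k f (q d) h := by
    intro d hd h hh
    have hqd := hq d (hD0q d (hDD0 hd))
    exact hit_of_modEq hqd.2.2.1 hh (hf (q d) d hd rfl)
  refine ⟨P, f, ?_, ?_, ?_, ?_, ?_⟩
  · rw [disjoint_left]
    intro p hpU hpP
    rw [hP, mem_image] at hpP
    obtain ⟨d, hd, rfl⟩ := hpP
    rw [hD, mem_filter] at hd
    exact hd.2 hpU
  · intro p hp
    rw [hP, mem_image] at hp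
    obtain ⟨d, hd, rfl⟩ := hp
    have hqd := hq d (hD0q d (hDD0 hd))
    have : Y < d := by
      have := hDD0 hd
      rw [hD0, mem_filter, mem_Ioc] at this
      exact this.1.1
    exact ⟨hqd.1, by omega⟩
  · have h1 : #P ≤ #(Ioc Y Z) := by
      calc #P ≤ #D := card_image_le
        _ ≤ #D0 := card_le_card hDD0
        _ ≤ #(Ioc Y Z) := card_filter_le _ _
    rw [Nat.card_Ioc] at h1
    omega
  · rw [hP, prod_image hinjD]
    calc ∏ d ∈ D, q d ≤ ∏ d ∈ D, K ^ (2 * Z) := by
          apply prod_le_prod' 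
          intro d hd
          have hqd := hq d (hD0q d (hDD0 hd))
          have hdZ : d ≤ Z := by
            have := hDD0 hd
            rw [hD0, mem_filter, mem_Ioc] at this
            exact this.1.2
          calc q d ≤ a ^ (2 * d) := hqd.2.2.2.2
            _ ≤ K ^ (2 * d) := Nat.pow_le_pow_left haK _
            _ ≤ K ^ (2 * Z) := Nat.pow_le_pow_right (by omega) (by omega)
      _ = K ^ (2 * Z * #D) := by rw [prod_const, ← pow_mul]
      _ ≤ K ^ (2 * Z ^ 2) := by
          apply Nat.pow_le_pow_right (by omega)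
          have h1 : #D ≤ Z := by
            calc #D ≤ #D0 := card_le_card hDD0
              _ ≤ #(Ioc Y Z) := card_filter_le _ _
              _ ≤ Z := by rw [Nat.card_Ioc]; omega
          nlinarith
  · -- counting
    have h1 : (#{h ∈ range (H + 1) | #{p ∈ P | hit a j k f p h} < L} : ℝ) ≤
        #{h ∈ range (H + 1) | #{d ∈ D | h ≡ r d [MOD 2 * d]} < L} := by
      rw [Nat.cast_le]
      apply card_le_card
      intro h hh
      rw [mem_filter] at hh ⊢
      refine ⟨hh.1, lt_of_le_of_lt ?_ hh.2⟩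
      apply card_le_card_of_injOn q
      · intro d hd
        rw [mem_coe, mem_filter] at hd
        rw [mem_coe, mem_filter]
        exact ⟨mem_image_of_mem q hd.1, hhit d hd.1 h hd.2⟩
      · intro d hd e he hde
        rw [mem_coe, mem_filter] at hd he
        exact hinjD hd.1 he.1 hde
    refine h1.trans (hr.trans ?_)
    apply mul_le_mul_of_nonneg_left _ (by positivity)
    apply Real.exp_le_exp.2
    have h2 : (∑ d ∈ D0, 1 / (d : ℝ)) - 1 ≤ ∑ d ∈ D, 1 / (d : ℝ) := by
      have h3 : ∑ d ∈ D0, 1 / (d : ℝ) = ∑ d ∈ D, 1 / (d : ℝ) +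
          ∑ d ∈ D0 with ¬ q d ∉ U, 1 / (d : ℝ) := (sum_filter_add_sum_filter_not _ _ _).symm
      have h4 : ∑ d ∈ D0 with ¬ q d ∉ U, 1 / (d : ℝ) ≤ 1 := by
        calc ∑ d ∈ D0 with ¬ q d ∉ U, 1 / (d : ℝ)
            ≤ ∑ d ∈ D0 with ¬ q d ∉ U, 1 / (Y : ℝ) := by
              apply sum_le_sum
              intro d hd
              have h5 : Y < d := by
                have := (mem_filter.1 hd).1
                rw [hD0, mem_filter, mem_Ioc] at this
                exact this.1.1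
              apply one_div_le_one_div_of_le
              · exact_mod_cast (by omega : 0 < Y)
              · exact_mod_cast h5.le
          _ = (#{d ∈ D0 | ¬ q d ∉ U} : ℝ) * (1 / (Y : ℝ)) := by rw [sum_const, nsmul_eq_mul]
          _ ≤ (Y : ℝ) * (1 / (Y : ℝ)) := by
              apply mul_le_mul_of_nonneg_right _ (by positivity)
              rw [Nat.cast_le]
              refine le_trans ?_ hU
              apply card_le_card_of_injOn q
              · intro d hd
                rw [mem_coe, mem_filter] at hd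
                have := hd.2
                push Not at this
                exact this
              · intro d hd e he hde
                rw [mem_coe, mem_filter] at hd he
                exact hinj hd.1 he.1 hde
          _ = 1 := by
              have : (Y : ℝ) ≠ 0 := by
                have : 0 < Y := by omega
                positivity
              field_simp
      linarith
    nlinarith

end Pool.Agent.Q43.Dig
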