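import Mathlib

set_option autoImplicit false

namespace Pool.Agent.Q43.Dig

open Polynomial

theorem root_mod {n q b : ℕ} (h : (q : ℤ) ∣ (cyclotomic n ℤ).eval (b : ℤ)) :
    IsRoot (cyclotomic n (ZMod q)) (b : ZMod q) := by
  have h1 := eval_intCast_map (Int.castRingHom (ZMod q)) (cyclotomic n ℤ) (b : ℤ)
  rw [map_cyclotomic_int] at h1
  rw [IsRoot.def]
  have h2 : ((b : ℤ) : ZMod q) = (b : ZMod q) := by norm_cast
  rw [h2] at h1
  rw [h1]
  simpa using (ZMod.intCast_zmod_eq_zero_iff_dvd _ _).2 h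

/-- An odd prime `q` dividing `d` divides `Φ_d(b)` at most once. -/
theorem sq_not_dvd {d q b : ℕ} (hq : q.Prime) (hb : 2 ≤ b) (hd : 0 < d) (hodd : Odd d) (hqd : q ∣ d) :
    ¬ (q : ℤ) ^ 2 ∣ (cyclotomic d ℤ).eval (b : ℤ) := by
  intro hd2
  have := Fact.mk hq
  have hqo : Odd q := Odd.of_dvd_nat hodd hqd
  obtain ⟨e, rfl⟩ := hqd
  have he : 0 < e := by
    rcases Nat.eq_zero_or_pos e with h | h
    · subst h; simp at hd
    · exact h
  have hmem : e ∈ (q * e).properDivisors := by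
    rw [Nat.mem_properDivisors]
    refine ⟨Dvd.intro_left q rfl, ?_⟩
    have := hq.two_le
    nlinarith
  obtain ⟨g, hg⟩ := X_pow_sub_one_mul_cyclotomic_dvd_X_pow_sub_one_of_dvd ℤ hmem
  have hev : ((b : ℤ) ^ (q * e) - 1) =
      ((b : ℤ) ^ e - 1) * (cyclotomic (q * e) ℤ).eval (b : ℤ) * g.eval (b : ℤ) := by
    have := congrArg (Polynomial.eval (b : ℤ)) hg
    simpa using this
  set c : ℤ := (b : ℤ) ^ e with hc
  have hcq : (b : ℤ) ^ (q * e) = c ^ q := by rw [hc, ← pow_mul, mul_comm]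
  have hc1 : c - 1 ≠ 0 := by
    have : (2 : ℤ) ≤ c := by
      calc (2 : ℤ) = 2 ^ 1 := by norm_num
        _ ≤ 2 ^ e := pow_le_pow_right₀ (by norm_num) he
        _ ≤ c := by
          rw [hc]
          exact pow_le_pow_left₀ (by norm_num) (by exact_mod_cast hb) e
    omega
  have hgeom : (∑ i ∈ Finset.range q, c ^ i) * (c - 1) = c ^ q - 1 := geom_sum_mul c q
  have hdv : (cyclotomic (q * e) ℤ).eval (b : ℤ) ∣ ∑ i ∈ Finset.range q, c ^ i := by
    refine ⟨g.eval (b : ℤ), ?_⟩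
    apply mul_right_cancel₀ hc1
    rw [hgeom, ← hcq, hev]; ring
  have hqdvd : (q : ℤ) ∣ c ^ q - 1 := by
    rw [← hgeom]
    exact Dvd.dvd.mul_right ((Dvd.intro_left ((q:ℤ) ^ 1) (by ring)).trans (hd2.trans hdv)) _
  have hc1' : (q : ℤ) ∣ c - 1 := by
    have h1 : ((c ^ q - 1 : ℤ) : ZMod q) = 0 := (ZMod.intCast_zmod_eq_zero_iff_dvd _ _).2 hqdvd
    push_cast at h1
    rw [ZMod.pow_card] at h1
    have h2 : ((c - 1 : ℤ) : ZMod q) = 0 := by push_cast; exact h1
    exact (ZMod.intCast_zmod_eq_zero_iff_dvd _ _).1 h2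
  obtain ⟨t, ht⟩ := hc1'
  have hct : c = 1 + (q : ℤ) * t := by linarith
  have h3 := odd_sq_dvd_geom_sum₂_sub (R := ℤ) (a := 1) (b := t) (p := q) hqo
  simp only [one_pow, mul_one] at h3
  rw [← hct] at h3
  have h4 : (q : ℤ) ^ 2 ∣ (q : ℤ) := by
    have := dvd_sub (hd2.trans hdv) h3
    simpa using this
  have h5 : (q : ℤ) ^ 2 ≤ q := Int.le_of_dvd (by exact_mod_cast hq.pos) h4
  have h6 : (2 : ℤ) ≤ q := by exact_mod_cast hq.two_le
  nlinarith

/-- For `a ≥ 2` and odd `d ≥ 3` there is a prime modulo which `a ^ 2` has order exactly `d`. -/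
theorem exists_prime_order {a d : ℕ} (ha : 2 ≤ a) (hd : 3 ≤ d) (hodd : Odd d) :
    ∃ p : ℕ, p.Prime ∧ orderOf ((a : ZMod p) ^ 2) = d := by
  set b : ℕ := a ^ 2 with hbd
  have hb : 4 ≤ b := by rw [hbd]; nlinarith
  by_contra hno
  push Not at hno
  have hall : ∀ q : ℕ, q.Prime → (q : ℤ) ∣ (cyclotomic d ℤ).eval (b : ℤ) → q ∣ d := by
    intro q hq hqd
    by_contra hnd
    have := Fact.mk hq
    have : NeZero ((d : ℕ) : ZMod q) := ⟨by rwa [Ne, ZMod.natCast_eq_zero_iff]⟩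
    have h1 := (isRoot_cyclotomic_iff.1 (root_mod hqd)).eq_orderOf.symm
    apply hno q hq
    rw [← h1, hbd]; push_cast; rfl
  set m : ℕ := ((cyclotomic d ℤ).eval (b : ℤ)).natAbs with hm
  have hpos : 0 < (cyclotomic d ℤ).eval (b : ℤ) := cyclotomic_pos (by omega) _
  have hmcast : (m : ℤ) = (cyclotomic d ℤ).eval (b : ℤ) := by
    rw [hm]; exact Int.natAbs_of_nonneg hpos.le
  have hm0 : m ≠ 0 := by
    intro h
    rw [h] at hmcast
    simp at hmcast
    omega
  have hsq : Squarefree m := by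
    rw [Nat.squarefree_iff_prime_squarefree]
    intro q hq hqq
    have h1 : (q : ℤ) ∣ (cyclotomic d ℤ).eval (b : ℤ) := by
      rw [← hmcast]; exact_mod_cast (Dvd.intro q rfl).trans hqq
    refine sq_not_dvd (b := b) hq (by omega) (by omega) hodd (hall q hq h1) ?_
    rw [← hmcast]
    have : ((q * q : ℕ) : ℤ) ∣ (m : ℤ) := by exact_mod_cast hqq
    simpa [sq] using this
  have hmd : m ∣ d := by
    rw [← Nat.prod_primeFactors_of_squarefree hsq]
    refine (Finset.prod_dvd_prod_of_subset _ _ _ ?_).trans (Nat.prod_primeFactors_dvd d)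
    intro q hq
    rw [Nat.mem_primeFactors] at hq ⊢
    refine ⟨hq.1, hall q hq.1 ?_, by omega⟩
    rw [← hmcast]; exact_mod_cast hq.2.1
  have hmle : m ≤ d := Nat.le_of_dvd (by omega) hmd
  have hlow := sub_one_pow_totient_lt_cyclotomic_eval (n := d) (q := (b : ℝ)) (by omega)
    (by exact_mod_cast (by omega : 1 < b))
  have hcast : (cyclotomic d ℝ).eval (b : ℝ) = (m : ℝ) := by
    have h1 : (cyclotomic d ℝ).eval (b : ℝ) = (((cyclotomic d ℤ).eval (b : ℤ) : ℤ) : ℝ) := by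
      rw [← map_cyclotomic_int d ℝ]
      have := eval_intCast_map (Int.castRingHom ℝ) (cyclotomic d ℤ) (b : ℤ)
      simpa using this
    rw [h1, ← hmcast]; norm_cast
  rw [hcast] at hlow
  have hcop : Nat.Coprime 2 d := (Nat.coprime_two_left).2 hodd
  have heul := Nat.ModEq.pow_totient hcop
  have htot : 0 < d.totient := Nat.totient_pos.2 (by omega)
  have h2 : d ∣ 2 ^ d.totient - 1 := (Nat.modEq_iff_dvd' Nat.one_le_two_pow).1 heul.symm
  have h3 : d ≤ 2 ^ d.totient - 1 := by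
    apply Nat.le_of_dvd _ h2
    have : 2 ^ 1 ≤ 2 ^ d.totient := Nat.pow_le_pow_right (by norm_num) htot
    omega
  have h4 : (d : ℝ) ≤ 2 ^ d.totient := by
    have : d ≤ 2 ^ d.totient := by omega
    exact_mod_cast this
  have h5 : (2 : ℝ) ^ d.totient ≤ ((b : ℝ) - 1) ^ d.totient := by
    apply pow_le_pow_left₀ (by norm_num)
    have : (4 : ℝ) ≤ b := by exact_mod_cast hb
    linarith
  have h6 : (m : ℝ) ≤ d := by exact_mod_cast hmle
  linarith

/-- Packaged form. -/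
theorem exists_prime {a d : ℕ} (ha : 2 ≤ a) (hd : 3 ≤ d) (hodd : Odd d) :
    ∃ p : ℕ, p.Prime ∧ orderOf ((a : ZMod p) ^ 2) = d ∧ (a : ZMod p) ^ (2 * d) = 1 ∧ d < p ∧
      p ≤ a ^ (2 * d) := by
  obtain ⟨p, hp, hord⟩ := exists_prime_order ha hd hodd
  have := Fact.mk hp
  have h1 : (a : ZMod p) ^ (2 * d) = 1 := by
    rw [pow_mul, ← hord]; exact pow_orderOf_eq_one _
  have h0 : ((a : ZMod p) ^ 2) ≠ 0 := by
    intro h
    rw [pow_mul, h, zero_pow (by omega)] at h1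
    exact zero_ne_one h1
  have h2 : d ∣ p - 1 := by
    rw [← hord]; exact ZMod.orderOf_dvd_card_sub_one h0
  have h3 : d < p := by
    have := Nat.le_of_dvd (by have := hp.two_le; omega) h2
    have := hp.two_le
    omega
  refine ⟨p, hp, hord, h1, h3, ?_⟩
  have h4 : p ∣ a ^ (2 * d) - 1 := by
    have h5 : ((a ^ (2 * d) - 1 : ℕ) : ZMod p) = 0 := by
      rw [Nat.cast_sub (Nat.one_le_pow _ _ (by omega))]
      push_cast; rw [h1]; simp
    exact (ZMod.natCast_eq_zero_iff _ _).1 h5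
  have h6 : 0 < a ^ (2 * d) - 1 := by
    have : 2 ^ 1 ≤ a ^ (2 * d) := by
      calc 2 ^ 1 ≤ 2 ^ (2 * d) := Nat.pow_le_pow_right (by norm_num) (by omega)
        _ ≤ a ^ (2 * d) := Nat.pow_le_pow_left ha _
    omega
  exact (Nat.le_of_dvd h6 h4).trans (Nat.sub_le _ _)

end Pool.Agent.Q43.Dig
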