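import Pool.Agent.Q43.Dig.Greedy

set_option autoImplicit false

namespace Pool.Agent.Q43.Dig

open Finset

theorem odd_step {d : ℕ} (hd : 0 < d) :
    (1 / 2) * (Real.log ((d : ℝ) + 2) - Real.log d) ≤ 1 / (d : ℝ) := by
  have hd' : (0 : ℝ) < d := by exact_mod_cast hd
  rw [← Real.log_div (by positivity) hd'.ne']
  have h1 := Real.log_le_sub_one_of_pos (show 0 < ((d : ℝ) + 2) / d by positivity)
  have h2 : ((d : ℝ) + 2) / d - 1 = 2 / d := by field_simp; ring
  rw [h2] at h1
  have h3 : 1 / (d : ℝ) = (1 / 2) * (2 / d) := by ring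
  rw [h3]; linarith

theorem odd_sum_aux (Y : ℕ) (Z : ℕ) (hYZ : Y ≤ Z) :
    (1 / 2) * (Real.log ((if Odd Z then (Z : ℝ) + 2 else (Z : ℝ) + 1)) - Real.log (Y + 2)) ≤
      ∑ d ∈ Ioc Y Z with Odd d, 1 / (d : ℝ) := by
  induction Z, hYZ using Nat.le_induction with
  | base =>
    simp only [Ioc_self, filter_empty, sum_empty]
    have : Real.log ((if Odd Y then (Y : ℝ) + 2 else (Y : ℝ) + 1)) ≤ Real.log (Y + 2) := by
      apply Real.log_le_log
      · split_ifs <;> positivity
      · split_ifs <;> linarith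
    linarith
  | succ Z hYZ ih =>
    have hI : Ioc Y (Z + 1) = insert (Z + 1) (Ioc Y Z) := by
      ext t; simp only [mem_Ioc, mem_insert]; omega
    rw [hI, filter_insert]
    by_cases hodd : Odd (Z + 1)
    · have hne : ¬ Odd Z := by
        rw [Nat.not_odd_iff_even]
        obtain ⟨m, hm⟩ := hodd
        exact ⟨m, by omega⟩
      rw [if_pos hodd, if_pos hodd, sum_insert (by simp)]
      rw [if_neg hne] at ih
      have := odd_step (d := Z + 1) (by omega)
      push_cast at this ⊢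
      linarith
    · have hne : Odd Z := by
        rw [Nat.not_odd_iff_even] at hodd
        obtain ⟨m, hm⟩ := hodd
        exact ⟨m - 1, by omega⟩
      rw [if_neg hodd, if_neg hodd]
      rw [if_pos hne] at ih
      push_cast at ih ⊢
      have h3 : (Z : ℝ) + 1 + 1 = Z + 2 := by ring
      rw [h3]
      exact ih

theorem odd_sum (Y n : ℕ) (hY : 2 ≤ Y) :
    (1 / 2) * Real.log Y - 1 ≤ ∑ d ∈ Ioc (Y ^ (n + 1)) (Y ^ (n + 2)) with Odd d, 1 / (d : ℝ) := by
  have h := odd_sum_aux (Y ^ (n + 1)) (Y ^ (n + 2)) (Nat.pow_le_pow_right (by omega) (by omega))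
  refine le_trans ?_ h
  have hY0 : (0 : ℝ) < Y := by exact_mod_cast (by omega : 0 < Y)
  have hY2 : (2 : ℝ) ≤ Y := by exact_mod_cast hY
  have hp : (0 : ℝ) < (Y : ℝ) ^ (n + 1) := by positivity
  have h1 : Real.log ((Y : ℝ) ^ (n + 2)) ≤
      Real.log (if Odd (Y ^ (n + 2)) then ((Y ^ (n + 2) : ℕ) : ℝ) + 2
        else ((Y ^ (n + 2) : ℕ) : ℝ) + 1) := by
    apply Real.log_le_log (by positivity)
    split_ifs <;> push_cast <;> linarith
  have h2 : Real.log (((Y ^ (n + 1) : ℕ) : ℝ) + 2) ≤ Real.log (2 * (Y : ℝ) ^ (n + 1)) := by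
    apply Real.log_le_log (by positivity)
    have : (2 : ℝ) ≤ (Y : ℝ) ^ (n + 1) := by
      calc (2 : ℝ) ≤ Y := hY2
        _ = (Y : ℝ) ^ 1 := by ring
        _ ≤ (Y : ℝ) ^ (n + 1) := pow_le_pow_right₀ (by linarith) (by omega)
    push_cast
    linarith
  have h3 : Real.log (2 * (Y : ℝ) ^ (n + 1)) = Real.log 2 + (n + 1) * Real.log Y := by
    rw [Real.log_mul (by norm_num) hp.ne', Real.log_pow]; push_cast; ring
  have h4 : Real.log ((Y : ℝ) ^ (n + 2)) = (n + 2) * Real.log Y := by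
    rw [Real.log_pow]; push_cast; ring
  have h5 : Real.log 2 ≤ 1 := by have := Real.log_two_lt_d9; linarith
  rw [h3] at h2
  rw [h4] at h1
  nlinarith

/-- Stage 1: all but few of the conditions are satisfied many times. -/
theorem stage1 (K H L Y : ℕ) (hK : 2 ≤ K) (hKY : K ≤ Y) (C : List (ℕ × ℕ × ℤ))
    (hC : ∀ c ∈ C, 2 ≤ c.1 ∧ c.1 ≤ K ∧ 1 ≤ c.2.1 ∧ c.2.1 ≤ K) :
    ∃ (P : Finset ℕ) (f : ℕ → ℕ), (∀ p ∈ P, p.Prime ∧ K < p) ∧ #P ≤ Y ^ (C.length + 1) ∧
      ∏ p ∈ P, p ≤ K ^ (2 * C.length * (Y ^ (C.length + 1)) ^ 2) ∧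
      ∀ c ∈ C, (#{h ∈ range (H + 1) | #{p ∈ P | hit c.1 c.2.1 c.2.2 f p h} < L} : ℝ) ≤
        2 ^ L * (H + 1) * Real.exp (1 / 2 - (1 / 8) * Real.log Y) := by
  classical
  induction C with
  | nil => exact ⟨∅, fun _ => 0, by simp, by simp, by simp, by simp⟩
  | cons c C ih =>
    obtain ⟨P, f, hP1, hP2, hP3, hP4⟩ := ih fun e he => hC e (List.mem_cons_of_mem _ he)
    obtain ⟨hc1, hc2, hc3, hc4⟩ := hC c List.mem_cons_self
    set n := C.length with hn
    have hlen : (c :: C).length = n + 1 := by rw [List.length_cons]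
    have hYpos : 0 < Y := by omega
    have hYn : Y ≤ Y ^ (n + 1) := by
      calc Y = Y ^ 1 := by ring
        _ ≤ Y ^ (n + 1) := Nat.pow_le_pow_right hYpos (by omega)
    have hYn2 : Y ^ (n + 1) ≤ Y ^ (n + 2) := Nat.pow_le_pow_right hYpos (by omega)
    obtain ⟨P', f', hd, hP1', hcard', hprod', hcnt'⟩ := single (K := K) c.2.2 hc1 hc2 hc3 hc4 H L P
      (Y ^ (n + 1)) (Y ^ (n + 2)) hP2 (hKY.trans hYn) ((by omega : 2 ≤ Y).trans hYn) hYn2
    refine ⟨P ∪ P', fun p => if p ∈ P then f p else f' p, ?_, ?_, ?_, ?_⟩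
    · intro p hp
      rcases mem_union.1 hp with h | h
      · exact hP1 p h
      · exact hP1' p h
    · rw [hlen]
      calc #(P ∪ P') ≤ #P + #P' := card_union_le _ _
        _ ≤ Y ^ (n + 1) + #P' := by omega
        _ ≤ Y ^ (n + 1 + 1) := by
          have : Y ^ (n + 1 + 1) = Y ^ (n + 2) := rfl
          omega
    · rw [hlen, prod_union hd]
      calc (∏ p ∈ P, p) * ∏ p ∈ P', p ≤
          K ^ (2 * n * (Y ^ (n + 1)) ^ 2) * K ^ (2 * (Y ^ (n + 2)) ^ 2) :=
            Nat.mul_le_mul hP3 hprod'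
        _ ≤ K ^ (2 * n * (Y ^ (n + 2)) ^ 2) * K ^ (2 * (Y ^ (n + 2)) ^ 2) := by
            apply Nat.mul_le_mul_right
            apply Nat.pow_le_pow_right (by omega)
            exact Nat.mul_le_mul_left _ (Nat.pow_le_pow_left hYn2 2)
        _ = K ^ (2 * (n + 1) * (Y ^ (n + 1 + 1)) ^ 2) := by
            rw [← pow_add]; congr 1; ring
    · intro e he
      rcases List.mem_cons.1 he with h | h
      · subst h
        have h1 : (#{h ∈ range (H + 1) | #{p ∈ P ∪ P' | hit e.1 e.2.1 e.2.2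
            (fun p => if p ∈ P then f p else f' p) p h} < L} : ℝ) ≤
            #{h ∈ range (H + 1) | #{p ∈ P' | hit e.1 e.2.1 e.2.2 f' p h} < L} := by
          rw [Nat.cast_le]
          apply card_le_card
          intro h hh
          rw [mem_filter] at hh ⊢
          refine ⟨hh.1, lt_of_le_of_lt (card_le_card ?_) hh.2⟩
          intro p hp
          rw [mem_filter] at hp ⊢
          refine ⟨mem_union_right _ hp.1, ?_⟩
          have hnp : p ∉ P := fun h' => disjoint_left.1 hd h' hp.1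
          unfold hit at hp ⊢
          simp only [if_neg hnp]
          exact hp.2
        refine h1.trans (hcnt'.trans ?_)
        apply mul_le_mul_of_nonneg_left _ (by positivity)
        apply Real.exp_le_exp.2
        have := odd_sum Y n (by omega)
        linarith
      · have h1 : (#{h ∈ range (H + 1) | #{p ∈ P ∪ P' | hit e.1 e.2.1 e.2.2
            (fun p => if p ∈ P then f p else f' p) p h} < L} : ℝ) ≤
            #{h ∈ range (H + 1) | #{p ∈ P | hit e.1 e.2.1 e.2.2 f p h} < L} := by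
          rw [Nat.cast_le]
          apply card_le_card
          intro h hh
          rw [mem_filter] at hh ⊢
          refine ⟨hh.1, lt_of_le_of_lt (card_le_card ?_) hh.2⟩
          intro p hp
          rw [mem_filter] at hp ⊢
          refine ⟨mem_union_left _ hp.1, ?_⟩
          unfold hit at hp ⊢
          simp only [if_pos hp.1]
          exact hp.2
        exact h1.trans (hP4 e h)

/-- Stage 2: the remaining conditions get private primes. -/
theorem stage2 (K L : ℕ) (B : Finset ((ℕ × ℕ × ℤ) × ℕ))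
    (hB : ∀ b ∈ B, 1 ≤ b.1.2.1 ∧ b.1.2.1 ≤ K) :
    ∀ (A : Finset ℕ), (∀ p ∈ A, p.Prime ∧ K < p) → #B * L ≤ #A →
    ∃ f : ℕ → ℕ, ∀ b ∈ B, L ≤ #{p ∈ A | hit b.1.1 b.1.2.1 b.1.2.2 f p b.2} := by
  classical
  induction B using Finset.induction_on with
  | empty => intro A _ _; exact ⟨fun _ => 0, by simp⟩
  | insert b B hb ih =>
    intro A hA hcard
    rw [card_insert_of_notMem hb, add_mul, one_mul] at hcard
    obtain ⟨A', hA'A, hA'c⟩ := exists_subset_card_eq (s := A) (n := L) (by omega)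
    obtain ⟨f, hf⟩ := ih (fun e he => hB e (mem_insert_of_mem he)) (A \ A')
      (fun p hp => hA p (mem_sdiff.1 hp).1) (by
        rw [card_sdiff_of_subset hA'A, hA'c]; omega)
    have hb1 := hB b (mem_insert_self _ _)
    have hres : ∀ p : ℕ, ∃ s : ℕ, p ∈ A' →
        (p : ℤ) ∣ (s : ℤ) * (b.1.2.1 : ℤ) + (b.1.1 : ℤ) ^ b.2 * b.1.2.2 := by
      intro p
      by_cases hp : p ∈ A'
      · have hpA := hA p (hA'A hp)
        obtain ⟨s, hs⟩ := exists_residue (p := p) (j := b.1.2.1) hpA.1 (by omega) (by omega)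
          ((b.1.1 : ℤ) ^ b.2 * b.1.2.2)
        exact ⟨s, fun _ => hs⟩
      · exact ⟨0, fun h => absurd h hp⟩
    choose g hg using hres
    refine ⟨fun p => if p ∈ A' then g p else f p, ?_⟩
    intro e he
    rcases mem_insert.1 he with h | h
    · subst h
      rw [← hA'c]
      apply card_le_card
      intro p hp
      rw [mem_filter]
      refine ⟨hA'A hp, ?_⟩
      unfold hit
      simp only [if_pos hp]
      exact hg p hp
    · refine (hf e h).trans (card_le_card ?_)
      intro p hp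
      rw [mem_filter, mem_sdiff] at hp
      rw [mem_filter]
      refine ⟨hp.1.1, ?_⟩
      unfold hit at hp ⊢
      simp only [if_neg hp.1.2]
      exact hp.2

/-- the combinations `(a, j, k)` with `2 ≤ a ≤ K`, `1 ≤ j ≤ K`, `|k| ≤ K` -/
noncomputable def combos (K : ℕ) : Finset (ℕ × ℕ × ℤ) := Icc 2 K ×ˢ (Icc 1 K ×ˢ Icc (-(K : ℤ)) K)

theorem mem_combos {K : ℕ} {c : ℕ × ℕ × ℤ} : c ∈ combos K ↔
    (2 ≤ c.1 ∧ c.1 ≤ K) ∧ (1 ≤ c.2.1 ∧ c.2.1 ≤ K) ∧ (-(K : ℤ) ≤ c.2.2 ∧ c.2.2 ≤ K) := by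
  unfold combos
  rw [mem_product, mem_product, mem_Icc, mem_Icc, mem_Icc]

theorem assemble (K H L Y X : ℕ) (hK : 2 ≤ K) (hKY : K ≤ Y)
    (hcount : #(combos K) * (2 ^ L * (H + 1) * Real.exp (1 / 2 - (1 / 8) * Real.log Y)) * L +
      (Y : ℝ) ^ (#(combos K) + 1) + K ≤ Nat.primeCounting X) :
    ∃ n0 Q : ℕ, 0 < Q ∧ Q ≤ K ^ (2 * #(combos K) * (Y ^ (#(combos K) + 1)) ^ 2) * 4 ^ X ∧
      ∀ n : ℤ, (Q : ℤ) ∣ n - n0 → ∀ c ∈ combos K, ∀ h ≤ H, n * c.2.1 + (c.1 : ℤ) ^ h * c.2.2 ≠ 0 →
        L ≤ #(n * c.2.1 + (c.1 : ℤ) ^ h * c.2.2).natAbs.primeFactors := by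
  classical
  set N := #(combos K) with hN
  have hlen : (combos K).toList.length = N := by rw [length_toList]
  obtain ⟨P, f, hP1, hP2, hP3, hP4⟩ := stage1 K H L Y hK hKY (combos K).toList (by
    intro c hc
    have := mem_combos.1 (mem_toList.1 hc)
    exact ⟨this.1.1, this.1.2, this.2.1.1, this.2.1.2⟩)
  rw [hlen] at hP2 hP3
  set B : Finset ((ℕ × ℕ × ℤ) × ℕ) := {b ∈ combos K ×ˢ range (H + 1) |
    #{p ∈ P | hit b.1.1 b.1.2.1 b.1.2.2 f p b.2} < L} with hB
  set A : Finset ℕ := {p ∈ Icc 1 X | p.Prime ∧ K < p ∧ p ∉ P} with hA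
  have hBc : (#B : ℝ) ≤ N * (2 ^ L * (H + 1) * Real.exp (1 / 2 - (1 / 8) * Real.log Y)) := by
    have h1 : #B = ∑ c ∈ combos K, #{b ∈ B | b.1 = c} := by
      apply card_eq_sum_card_fiberwise
      intro b hb
      rw [hB, mem_coe, mem_filter, mem_product] at hb
      exact hb.1.1
    rw [h1]
    push_cast
    calc ∑ c ∈ combos K, (#{b ∈ B | b.1 = c} : ℝ)
        ≤ ∑ c ∈ combos K, (2 ^ L * (H + 1) * Real.exp (1 / 2 - (1 / 8) * Real.log Y)) := by
          apply sum_le_sum
          intro c hc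
          refine le_trans ?_ (hP4 c (mem_toList.2 hc))
          rw [Nat.cast_le]
          apply card_le_card_of_injOn (fun b => b.2)
          · intro b hb
            rw [mem_coe, mem_filter] at hb
            obtain ⟨hb1, hb2⟩ := hb
            rw [hB, mem_filter, mem_product] at hb1
            rw [mem_coe, mem_filter]
            refine ⟨hb1.1.2, ?_⟩
            rw [← hb2]
            exact hb1.2
          · intro b hb b' hb' hbb
            rw [mem_coe, mem_filter] at hb hb'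
            exact Prod.ext (hb.2.trans hb'.2.symm) hbb
      _ = _ := by rw [sum_const, nsmul_eq_mul]
  have hAc : (Nat.primeCounting X : ℝ) ≤ #A + K + (Y : ℝ) ^ (N + 1) := by
    have h1 : Nat.primeCounting X ≤ #A + K + #P := by
      rw [← Nat.primesLE_card_eq_primeCounting]
      have hsub : Nat.primesLE X ⊆ (A ∪ Icc 1 K) ∪ P := by
        intro p hp
        rw [Nat.mem_primesLE] at hp
        by_cases hpP : p ∈ P
        · exact mem_union_right _ hpP
        · apply mem_union_left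
          by_cases hpK : p ≤ K
          · exact mem_union_right _ (mem_Icc.2 ⟨hp.2.one_lt.le, hpK⟩)
          · apply mem_union_left
            rw [hA, mem_filter, mem_Icc]
            exact ⟨⟨hp.2.one_lt.le, hp.1⟩, hp.2, by omega, hpP⟩
      calc #(Nat.primesLE X) ≤ #((A ∪ Icc 1 K) ∪ P) := card_le_card hsub
        _ ≤ #(A ∪ Icc 1 K) + #P := card_union_le _ _
        _ ≤ #A + #(Icc 1 K) + #P := by
            have := card_union_le A (Icc 1 K)
            omega
        _ = #A + K + #P := by rw [Nat.card_Icc]; simp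
    calc (Nat.primeCounting X : ℝ) ≤ ((#A + K + #P : ℕ) : ℝ) := by exact_mod_cast h1
      _ = #A + K + #P := by push_cast; ring
      _ ≤ #A + K + (Y : ℝ) ^ (N + 1) := by
          have : (#P : ℝ) ≤ (Y : ℝ) ^ (N + 1) := by exact_mod_cast hP2
          linarith
  have hBA : #B * L ≤ #A := by
    have : ((#B * L : ℕ) : ℝ) ≤ #A := by
      push_cast
      have h1 : (#B : ℝ) * L ≤
          N * (2 ^ L * (H + 1) * Real.exp (1 / 2 - (1 / 8) * Real.log Y)) * L :=
        mul_le_mul_of_nonneg_right hBc (by positivity)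
      linarith
    exact_mod_cast this
  have hA1 : ∀ p ∈ A, p.Prime ∧ K < p := by
    intro p hp
    rw [hA, mem_filter] at hp
    exact ⟨hp.2.1, hp.2.2.1⟩
  obtain ⟨g, hg⟩ := stage2 K L B (by
    intro b hb
    rw [hB, mem_filter, mem_product] at hb
    have := mem_combos.1 hb.1.1
    exact ⟨this.2.1.1, this.2.1.2⟩) A hA1 hBA
  set F : ℕ → ℕ := fun p => if p ∈ P then f p else g p with hF
  have hdis : Disjoint P A := by
    rw [disjoint_left]
    intro p hpP hpA
    rw [hA, mem_filter] at hpA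
    exact hpA.2.2.2 hpP
  have hprime : ∀ p ∈ P ∪ A, p.Prime := by
    intro p hp
    rcases mem_union.1 hp with h | h
    · exact (hP1 p h).1
    · exact (hA1 p h).1
  obtain ⟨n0, hn0⟩ := Nat.chineseRemainderOfFinset F id (P ∪ A)
    (fun p hp => (hprime p hp).ne_zero)
    (fun p hp q hq hpq => (Nat.coprime_primes (hprime p hp) (hprime q hq)).2 hpq)
  refine ⟨n0, ∏ p ∈ P ∪ A, p, ?_, ?_, ?_⟩
  · exact prod_pos fun p hp => (hprime p hp).pos
  · rw [prod_union hdis]
    apply Nat.mul_le_mul hP3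
    refine le_trans ?_ (primorial_le_four_pow X)
    unfold primorial
    apply prod_le_prod_of_subset_of_one_le'
    · intro p hp
      rw [hA, mem_filter, mem_Icc] at hp
      rw [mem_filter, mem_range]
      exact ⟨by omega, hp.2.1⟩
    · intro p hp _
      exact (mem_filter.1 hp).2.one_lt.le
  · intro n hn c hc h hh hne
    have key : ∀ p ∈ P ∪ A, hit c.1 c.2.1 c.2.2 F p h →
        p ∈ (n * c.2.1 + (c.1 : ℤ) ^ h * c.2.2).natAbs.primeFactors := by
      intro p hp hhit
      rw [Nat.mem_primeFactors]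
      refine ⟨hprime p hp, ?_, Int.natAbs_ne_zero.2 hne⟩
      rw [← Int.natCast_dvd]
      have h1 : (p : ℤ) ∣ n - n0 := by
        refine dvd_trans ?_ hn
        exact_mod_cast dvd_prod_of_mem (fun p => p) hp
      have h2 : (p : ℤ) ∣ (F p : ℤ) - n0 := by
        have := hn0 p hp
        exact (Nat.modEq_iff_dvd.1 this)
      have h3 : (p : ℤ) ∣ n - F p := by
        have := dvd_sub h1 h2
        have h4 : n - (n0 : ℤ) - ((F p : ℤ) - n0) = n - F p := by ring
        rwa [h4] at this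
      have h5 : n * c.2.1 + (c.1 : ℤ) ^ h * c.2.2 =
          (n - F p) * c.2.1 + ((F p : ℤ) * c.2.1 + (c.1 : ℤ) ^ h * c.2.2) := by ring
      rw [h5]
      exact dvd_add (Dvd.dvd.mul_right h3 _) hhit
    by_cases hb : (c, h) ∈ B
    · refine (hg _ hb).trans (card_le_card ?_)
      intro p hp
      rw [mem_filter] at hp
      apply key p (mem_union_right _ hp.1)
      have hnp : p ∉ P := fun h' => disjoint_left.1 hdis h' hp.1
      unfold hit at hp ⊢
      rw [hF]
      simp only [if_neg hnp]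
      exact hp.2
    · have h1 : L ≤ #{p ∈ P | hit c.1 c.2.1 c.2.2 f p h} := by
        by_contra hlt
        push Not at hlt
        apply hb
        rw [hB, mem_filter, mem_product]
        exact ⟨⟨hc, mem_range.2 (by omega)⟩, hlt⟩
      refine h1.trans (card_le_card ?_)
      intro p hp
      rw [mem_filter] at hp
      apply key p (mem_union_left _ hp.1)
      unfold hit at hp ⊢
      rw [hF]
      simp only [if_pos hp.1]
      exact hp.2

end Pool.Agent.Q43.Dig
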